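import Pool.Agent.Lib.MP_05aa0e_al.ExDens

set_option autoImplicit false

namespace Pool.Agent.Results.MP_05aa0e_al.DensityOne

/-- There are `d` linearly independent quadratic relations in `n` generators over `K` whose
quotient algebra kills all products of `k` generators. -/
def StepNilpotent (K : Type) [Field K] (n d k : ℕ) : Prop :=
  ∃ r : Fin d → Fin n → Fin n → K, LinearIndependent K r ∧ ∀ w : Fin k → Fin n,
    RingQuot.mkAlgHom K (fun a b : FreeAlgebra K (Fin n) =>
        (∃ l, a = ∑ i, ∑ j, r l i j • (FreeAlgebra.ι K i * FreeAlgebra.ι K j)) ∧ b = 0)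
      (List.ofFn (fun t => FreeAlgebra.ι K (w t))).prod = 0

/-- The conjectured number of relations. -/
noncomputable def bound (k n : ℕ) : ℕ :=
  ⌈(n : ℝ) ^ 2 / (4 * Real.cos (Real.pi / ((k : ℝ) + 1)) ^ 2)⌉₊

theorem result : ∀ k : ℕ, (k = 4 ∨ 6 ≤ k) →
    Filter.Tendsto (fun N : ℕ => (({n : ℕ | n < N ∧
        ∀ (K : Type) [Field K], StepNilpotent K n (bound k n) k}.ncard : ℕ) : ℝ) / N)
      Filter.atTop (nhds 1) :=
  fun _ hk => Pool.Agent.Lib.MP_05aa0e_al.Ex.exact_density hk _ fun _ h => h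

end Pool.Agent.Results.MP_05aa0e_al.DensityOne
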