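import Pool.Agent.Lib.MP_05aa0e_al.Main

set_option autoImplicit false

namespace Pool.Agent.Results.MP_05aa0e_al.PellSeven

theorem result : ∀ (K : Type) [Field K] (n P H : ℕ), n = 2 * P → H ^ 2 + 1 = 2 * P ^ 2 →
    ∃ r : Fin ⌈((n : ℝ) ^ 2 / (4 * Real.cos (Real.pi / 8) ^ 2))⌉₊ → (Fin n → Fin n → K),
      ∀ w : Fin 7 → Fin n,
        RingQuot.mkAlgHom K (fun a b : FreeAlgebra K (Fin n) =>
            (∃ l, a = ∑ i, ∑ j, r l i j • (FreeAlgebra.ι K i * FreeAlgebra.ι K j)) ∧ b = 0)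
          (List.ofFn (fun t => FreeAlgebra.ι K (w t))).prod = 0 := by
  intro K _ n P H hn h
  have := Pool.Agent.Lib.MP_05aa0e_al.pell_seven K P H h
  rw [show ((7 : ℕ) : ℝ) + 1 = 8 by norm_num, ← hn] at this
  exact this

end Pool.Agent.Results.MP_05aa0e_al.PellSeven
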