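import Pool.Agent.Lib.MP_05aa0e_al.ExFinal

set_option autoImplicit false

namespace Pool.Agent.Results.MP_05aa0e_al.PowerError

/-- Some quadratic `K`-algebra given by `n` generators and `d` quadratic relations has
every product of `k` generators equal to zero. -/
def StepNilpotent (K : Type) [Field K] (n d k : ℕ) : Prop :=
  ∃ r : Fin d → Fin n → Fin n → K, ∀ w : Fin k → Fin n,
    RingQuot.mkAlgHom K (fun a b : FreeAlgebra K (Fin n) =>
        (∃ l, a = ∑ i, ∑ j, r l i j • (FreeAlgebra.ι K i * FreeAlgebra.ι K j)) ∧ b = 0)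
      (List.ofFn (fun t => FreeAlgebra.ι K (w t))).prod = 0

theorem result : ∀ k : ℕ, 2 ≤ k → ∃ C : ℝ, ∀ (K : Type) [Field K] (n d : ℕ), 1 ≤ n →
    (n : ℝ) ^ 2 / (4 * Real.cos (Real.pi / ((k : ℝ) + 1)) ^ 2) +
      C * (n : ℝ) ^ (-(1 / 6 : ℝ)) ≤ d → StepNilpotent K n d k :=
  fun k hk => Pool.Agent.Lib.MP_05aa0e_al.Ex.power_error k hk

end Pool.Agent.Results.MP_05aa0e_al.PowerError
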